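import Pool.Agent.W64.DM.Stm

set_option autoImplicit false

/-! Project DM (helper64): coprime pairs in dyadic boxes. -/

namespace Pool.Agent.W347.DM.Cop

open Finset Pool.Agent.W64.DM

theorem sum_inv_sq (Q : ℕ) (hQ : 3 ≤ Q) :
    ∑ q ∈ Ico (2 : ℕ) Q, (1 : ℝ) / (q : ℝ) ^ 2 ≤ 3 / 4 - 1 / ((Q : ℝ) - 1) := by
  induction Q, hQ using Nat.le_induction with
  | base => norm_num [Finset.sum_Ico_succ_top]
  | succ Q hQ ih =>
    rw [Finset.sum_Ico_succ_top (by omega)]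
    have hQ' : (3 : ℝ) ≤ Q := by exact_mod_cast hQ
    have h1 : (1 : ℝ) / (Q : ℝ) ^ 2 ≤ 1 / ((Q : ℝ) - 1) - 1 / (Q : ℝ) := by
      rw [div_sub_div _ _ (by linarith) (by linarith), div_le_div_iff₀ (by positivity)
        (by nlinarith)]
      nlinarith
    push_cast
    have e : (Q : ℝ) + 1 - 1 = Q := by ring
    rw [e]
    linarith

theorem sum_inv (b : ℕ) : ∑ q ∈ Ico (2 : ℕ) (2 ^ (b + 1)), (1 : ℝ) / (q : ℝ) ≤ b := by
  induction b with
  | zero => simp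
  | succ b ih =>
    have h2 : 2 ≤ 2 ^ (b + 1) := by
      rw [pow_succ]
      have := Nat.one_le_two_pow (n := b)
      omega
    have h3 : 2 ^ (b + 1) ≤ 2 ^ (b + 1 + 1) := Nat.pow_le_pow_right (by norm_num) (by omega)
    rw [← Finset.sum_Ico_consecutive _ h2 h3]
    have h4 : ∑ q ∈ Ico ((2 : ℕ) ^ (b + 1)) (2 ^ (b + 1 + 1)), (1 : ℝ) / (q : ℝ) ≤ 1 := by
      have h5 : ∀ q ∈ Ico ((2 : ℕ) ^ (b + 1)) (2 ^ (b + 1 + 1)), (1 : ℝ) / (q : ℝ) ≤
          1 / (2 : ℝ) ^ (b + 1) := by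
        intro q hq
        rw [Finset.mem_Ico] at hq
        have : ((2 : ℝ)) ^ (b + 1) ≤ q := by exact_mod_cast hq.1
        exact one_div_le_one_div_of_le (by positivity) this
      refine (Finset.sum_le_card_nsmul _ _ _ h5).trans ?_
      rw [Nat.card_Ico, nsmul_eq_mul]
      have e : ((2 ^ (b + 1 + 1) - 2 ^ (b + 1) : ℕ) : ℝ) = 2 ^ (b + 1) := by
        rw [Nat.cast_sub h3]; push_cast; ring
      rw [e]
      have : (2 : ℝ) ^ (b + 1) ≠ 0 := by positivity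
      field_simp
      exact le_refl _
    push_cast
    linarith

theorem card_mult (N q : ℕ) (hq : 0 < q) :
    (((Ico (2 ^ N) (2 ^ (N + 1))).filter fun m => q ∣ m).card : ℝ) ≤ 2 ^ N / q + 1 := by
  have h := Nat.Ico_filter_modEq_card (a := 2 ^ N) (b := 2 ^ (N + 1)) hq 0
  have e : ((Ico (2 ^ N) (2 ^ (N + 1))).filter fun m => q ∣ m) =
      ((Ico (2 ^ N) (2 ^ (N + 1))).filter fun m => m ≡ 0 [MOD q]) := by
    refine Finset.filter_congr fun m _ => ?_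
    exact (Nat.modEq_zero_iff_dvd).symm
  rw [e]
  have hq' : (0 : ℚ) < q := by exact_mod_cast hq
  have h1 : ((((Ico (2 ^ N) (2 ^ (N + 1))).filter fun m => m ≡ 0 [MOD q]).card : ℤ) : ℚ) ≤
      2 ^ N / q + 1 := by
    rw [h]
    push_cast
    simp only [sub_zero]
    refine max_le ?_ (by positivity)
    have a1 := Int.ceil_lt_add_one ((2 : ℚ) ^ (N + 1) / q)
    have a2 := Int.le_ceil ((2 : ℚ) ^ N / q)
    have a3 : (2 : ℚ) ^ (N + 1) / q = 2 ^ N / q + 2 ^ N / q := by rw [pow_succ]; ring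
    linarith
  have h2 : (((((Ico (2 ^ N) (2 ^ (N + 1))).filter fun m => m ≡ 0 [MOD q]).card : ℤ) : ℚ) : ℝ) ≤
      ((2 ^ N / q + 1 : ℚ) : ℝ) := by exact_mod_cast h1
  push_cast at h2
  exact h2

theorem main : S_COP := by
  refine ⟨8, fun a b hb hab => ?_⟩
  set A := Ico (2 ^ a) (2 ^ (a + 1)) with hA
  set B := Ico (2 ^ b) (2 ^ (b + 1)) with hB
  have cA : A.card = 2 ^ a := by rw [hA, Nat.card_Ico, pow_succ]; omega
  have cB : B.card = 2 ^ b := by rw [hB, Nat.card_Ico, pow_succ]; omega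
  have htot : ((A ×ˢ B).filter fun q => Nat.Coprime q.1 q.2).card +
      ((A ×ˢ B).filter fun q => ¬ Nat.Coprime q.1 q.2).card = 2 ^ a * 2 ^ b := by
    rw [Finset.card_filter_add_card_filter_not, Finset.card_product, cA, cB]
  have hsub : ((A ×ˢ B).filter fun q => ¬ Nat.Coprime q.1 q.2) ⊆
      (Ico 2 (2 ^ (b + 1))).biUnion fun q =>
        (A.filter fun m => q ∣ m) ×ˢ (B.filter fun m => q ∣ m) := by
    rintro ⟨m, n⟩ h
    rw [Finset.mem_filter, Finset.mem_product] at h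
    obtain ⟨⟨hm, hn⟩, hc⟩ := h
    simp only at hm hn hc
    have hn' := hn
    rw [hB, Finset.mem_Ico] at hn'
    have hn0 : 0 < n := lt_of_lt_of_le (by positivity) hn'.1
    rw [Finset.mem_biUnion]
    refine ⟨Nat.gcd m n, ?_, ?_⟩
    · rw [Finset.mem_Ico]
      have g1 : Nat.gcd m n ≠ 1 := hc
      have g2 : 0 < Nat.gcd m n := Nat.gcd_pos_of_pos_right _ hn0
      have g3 : Nat.gcd m n ≤ n := Nat.gcd_le_right _ hn0
      omega
    · rw [Finset.mem_product, Finset.mem_filter, Finset.mem_filter]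
      exact ⟨⟨hm, Nat.gcd_dvd_left _ _⟩, ⟨hn, Nat.gcd_dvd_right _ _⟩⟩
  have h2b : (3 : ℕ) ≤ 2 ^ (b + 1) := by
    have : 2 ^ 2 ≤ 2 ^ (b + 1) := Nat.pow_le_pow_right (by norm_num) (by omega)
    omega
  have hNC : (((A ×ˢ B).filter fun q => ¬ Nat.Coprime q.1 q.2).card : ℝ) ≤
      ∑ q ∈ Ico (2 : ℕ) (2 ^ (b + 1)), ((2 : ℝ) ^ a / q + 1) * ((2 : ℝ) ^ b / q + 1) := by
    have h1 : ((A ×ˢ B).filter fun q => ¬ Nat.Coprime q.1 q.2).card ≤
        ∑ q ∈ Ico (2 : ℕ) (2 ^ (b + 1)), (A.filter fun m => q ∣ m).card *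
          (B.filter fun m => q ∣ m).card := by
      refine (Finset.card_le_card hsub).trans ?_
      refine Finset.card_biUnion_le.trans (le_of_eq ?_)
      exact Finset.sum_congr rfl fun q _ => Finset.card_product _ _
    have h1' : (((A ×ˢ B).filter fun q => ¬ Nat.Coprime q.1 q.2).card : ℝ) ≤
        ∑ q ∈ Ico (2 : ℕ) (2 ^ (b + 1)), ((A.filter fun m => q ∣ m).card : ℝ) *
          ((B.filter fun m => q ∣ m).card : ℝ) := by exact_mod_cast h1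
    refine h1'.trans (Finset.sum_le_sum fun q hq => ?_)
    rw [Finset.mem_Ico] at hq
    have hq0 : 0 < q := by omega
    exact mul_le_mul (card_mult a q hq0) (card_mult b q hq0) (Nat.cast_nonneg _) (by positivity)
  have hexp : ∑ q ∈ Ico (2 : ℕ) (2 ^ (b + 1)), ((2 : ℝ) ^ a / q + 1) * ((2 : ℝ) ^ b / q + 1) =
      2 ^ a * 2 ^ b * ∑ q ∈ Ico (2 : ℕ) (2 ^ (b + 1)), (1 : ℝ) / (q : ℝ) ^ 2 +
      (2 ^ a + 2 ^ b) * ∑ q ∈ Ico (2 : ℕ) (2 ^ (b + 1)), (1 : ℝ) / (q : ℝ) +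
      ((2 ^ (b + 1) - 2 : ℕ) : ℝ) := by
    have hc : ((2 ^ (b + 1) - 2 : ℕ) : ℝ) = ∑ q ∈ Ico (2 : ℕ) (2 ^ (b + 1)), (1 : ℝ) := by
      rw [Finset.sum_const, Nat.card_Ico, nsmul_eq_mul, mul_one]
    rw [hc, Finset.mul_sum, Finset.mul_sum, ← Finset.sum_add_distrib, ← Finset.sum_add_distrib]
    refine Finset.sum_congr rfl fun q hq => ?_
    rw [Finset.mem_Ico] at hq
    have : (q : ℝ) ≠ 0 := by
      have : 0 < q := by omega
      positivity
    field_simp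
    ring
  rw [hexp] at hNC
  have s1 := sum_inv_sq (2 ^ (b + 1)) h2b
  have s2 := sum_inv b
  have s1' : ∑ q ∈ Ico (2 : ℕ) (2 ^ (b + 1)), (1 : ℝ) / (q : ℝ) ^ 2 ≤ 3 / 4 := by
    refine s1.trans ?_
    have : (0 : ℝ) ≤ 1 / (((2 ^ (b + 1) : ℕ) : ℝ) - 1) := by
      have : (3 : ℝ) ≤ ((2 ^ (b + 1) : ℕ) : ℝ) := by exact_mod_cast h2b
      apply div_nonneg zero_le_one; linarith
    linarith
  have hba : (2 : ℝ) ^ b ≤ 2 ^ a := pow_le_pow_right₀ (by norm_num) hab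
  have hlast : ((2 ^ (b + 1) - 2 : ℕ) : ℝ) ≤ 2 * 2 ^ a := by
    have : ((2 ^ (b + 1) - 2 : ℕ) : ℝ) ≤ ((2 ^ (b + 1) : ℕ) : ℝ) := by
      exact_mod_cast Nat.sub_le _ _
    refine this.trans ?_
    push_cast
    rw [pow_succ]
    linarith
  have h2bb : (16 : ℝ) * (b + 1) ≤ 2 ^ b := by
    have key : ∀ n : ℕ, 8 ≤ n → 16 * (n + 1) ≤ 2 ^ n := by
      intro n hn
      induction n, hn using Nat.le_induction with
      | base => norm_num
      | succ n hn ih => rw [pow_succ]; omega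
    exact_mod_cast key b hb
  have hNC2 : (((A ×ˢ B).filter fun q => ¬ Nat.Coprime q.1 q.2).card : ℝ) ≤
      3 / 4 * (2 ^ a * 2 ^ b) + 2 * 2 ^ a * (b + 1) := by
    refine hNC.trans ?_
    have t1 : (2 : ℝ) ^ a * 2 ^ b * ∑ q ∈ Ico (2 : ℕ) (2 ^ (b + 1)), (1 : ℝ) / (q : ℝ) ^ 2 ≤
        2 ^ a * 2 ^ b * (3 / 4) := mul_le_mul_of_nonneg_left s1' (by positivity)
    have t2 : ((2 : ℝ) ^ a + 2 ^ b) * ∑ q ∈ Ico (2 : ℕ) (2 ^ (b + 1)), (1 : ℝ) / (q : ℝ) ≤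
        (2 ^ a + 2 ^ a) * b :=
      mul_le_mul (by linarith) s2 (Finset.sum_nonneg fun q _ => by positivity) (by positivity)
    linarith
  have htot' : (((A ×ˢ B).filter fun q => Nat.Coprime q.1 q.2).card : ℝ) +
      (((A ×ˢ B).filter fun q => ¬ Nat.Coprime q.1 q.2).card : ℝ) = 2 ^ a * 2 ^ b := by
    exact_mod_cast htot
  have hfin : ((2 : ℝ)) ^ (a + b) ≤
      8 * (((A ×ˢ B).filter fun q => Nat.Coprime q.1 q.2).card : ℝ) := by
    rw [pow_add]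
    have h16 : (2 : ℝ) ^ a * (16 * (b + 1)) ≤ 2 ^ a * 2 ^ b :=
      mul_le_mul_of_nonneg_left h2bb (by positivity)
    nlinarith
  exact_mod_cast hfin

end Pool.Agent.W347.DM.Cop
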